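import Pool.Agent.V1157.KF.Defs

/-!
# Kernels of Abel-Jacobi maps: definitions
-/

open CategoryTheory AlgebraicGeometry

universe u v w

namespace Pool.Agent.V1157.AK

open Pool.Agent.H914 Pool.Agent.H914.VarClass Pool.Agent.H914.VarClass.Obj Pool.Agent.W492.BB
  Pool.Agent.V1157.KF

variable {k : Type u} [Field k] {𝒱 : VarClass k} {C : TheoryData.{u, v, 0} 𝒱 ℚ} {K : Type w}
  [Field K] (H : WeilTheoryData.{u, v, w} C K)

/-- The Abel-Jacobi maps `φ` for the homologically trivial cycles of codimension `m` on the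
varieties `X` of dimension `n`, with values in `ℚ`-vector spaces `J(X)` (the intermediate Jacobians
modulo torsion). They are linear and compatible with the pull-backs and push-forwards `J(Y) → J(X)`,
`J(X) → J(Y)` for the morphisms `X ⟶ Y` between varieties of dimension `n`. -/
structure AbelJacobi (n m : ℕ) where
  /-- the intermediate Jacobian modulo torsion -/
  J : 𝒱.Obj → Type w
  [grp : ∀ X, AddCommGroup (J X)]
  [mod : ∀ X, Module ℚ (J X)]
  /-- the Abel-Jacobi map -/
  φ : ∀ {X : 𝒱.Obj}, C.A X → J X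
  /-- pull-back -/
  up : ∀ {X Y : 𝒱.Obj}, (X ⟶ Y) → J Y → J X
  /-- push-forward -/
  down : ∀ {X Y : 𝒱.Obj}, (X ⟶ Y) → J X → J Y
  φ_add : ∀ {X : 𝒱.Obj} {x y : C.A X}, HomTriv H m x → HomTriv H m y → φ (x + y) = φ x + φ y
  φ_smul : ∀ {X : 𝒱.Obj} {x : C.A X} (q : ℚ), HomTriv H m x → φ (q • x) = q • φ x
  up_zero : ∀ {X Y : 𝒱.Obj} (f : X ⟶ Y), up f 0 = 0
  down_zero : ∀ {X Y : 𝒱.Obj} (f : X ⟶ Y), down f 0 = 0
  φ_up : ∀ {X Y : 𝒱.Obj} (f : X ⟶ Y) {y : C.A Y}, X.dim = n → Y.dim = n → HomTriv H m y →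
    φ (C.up f y) = up f (φ y)
  φ_down : ∀ {X Y : 𝒱.Obj} (f : X ⟶ Y) {x : C.A X}, X.dim = n → Y.dim = n → HomTriv H m x →
    φ (C.down f x) = down f (φ x)

attribute [instance] AbelJacobi.grp AbelJacobi.mod

variable {H} {n m : ℕ} (a : AbelJacobi.{u, v, w} H n m)

/-- The homologically trivial cycle `x` of codimension `m` on `X` lies in the kernel of the
Abel-Jacobi map. -/
def InKernel (X : 𝒱.Obj) (x : C.A X) : Prop := HomTriv H m x ∧ a.φ x = 0

/-- The Abel-Jacobi maps of the varieties of dimension `n` are injective (modulo torsion) on the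
homologically trivial cycles of codimension `m`. -/
def AllInjective : Prop := ∀ (X : 𝒱.Obj) (x : C.A X), X.dim = n → InKernel a X x → x = 0

/-- The kernels of the Abel-Jacobi maps on the varieties of dimension `n` have dimension at most
`D`. -/
def KernelAtMost (D : ℕ) : Prop := ∀ (X : 𝒱.Obj) (x : Fin (D + 1) → C.A X), X.dim = n →
  (∀ i, InKernel a X (x i)) → ∃ c : Fin (D + 1) → ℚ, c ≠ 0 ∧ ∑ i, c i • x i = 0

/-- The actions of any two self-correspondences of degree zero on the kernels commute. -/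
def KernelCommuting : Prop := ∀ (X : 𝒱.Obj) (A B : C.A (X.prod X)) (x : C.A X), X.dim = n →
  C.Deg n A → C.Deg n B → InKernel a X x → C.act A (C.act B x) = C.act B (C.act A x)

/-- The actions of any `d` self-correspondences of degree zero on the kernels satisfy the
multilinear polynomial identity `∑ c(σ) W_{σ(1)} W_{σ(2)} ⋯ W_{σ(d)} = 0`, the sum over all
permutations `σ`. -/
def KernelIdentity (d : ℕ) (c : Equiv.Perm (Fin d) → ℚ) : Prop :=
  ∀ (X : 𝒱.Obj) (W : Fin d → C.A (X.prod X)) (x : C.A X), X.dim = n → (∀ i, C.Deg n (W i)) →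
    InKernel a X x → ∑ σ, c σ • ops C (List.ofFn fun i => W (σ i)) x = 0

end Pool.Agent.V1157.AK
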